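import Pool.Agent.N596.LA.Fin

/-!
# MP_ef2672_gt: Hermite's constant for lattices with small clusters

For a lattice `L = A ℤⁿ` with minimum `λ₁` let `γ(L) = λ₁² / det(L)^(2/n)`, so that `γ_n` is the
supremum of `γ(L)`. A cluster of level `β` is a finite set of vectors of `L` with mutual distances
less than `β λ₁`. Let `γ_n(β, K)` be the supremum of `γ(L)` over the lattices all of whose clusters of
level `β` have at most `K` elements; for `β ≤ 1` this is `γ_n`.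

For every `β ≥ √2` and all `K_n → ∞` of subexponential growth the limit of `γ_n(β, K_n) / n` exists
and is `1 / (π e β²)`; at `β = √2` this is `1 / (2 π e)`, the believed value of `lim γ_n / n`.
Lattices above this value, and near-optimal lattices for `β > √2`, have exponentially large clusters
of level `β` and at least linearly many vector lengths below `β λ₁`; linearly many lengths and
bounded clusters suffice up to this value.
-/

open Filter
open scoped Topology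

namespace Pool.Agent.Results.MP_ef2672_gt.ClusterExponentLattices

/-- squared length of the vector `A w` of the lattice `A ℤⁿ` -/
noncomputable def sqLen {n : ℕ} (A : Matrix (Fin n) (Fin n) ℝ) (w : Fin n → ℤ) : ℝ :=
  ∑ i, (Matrix.mulVec A (fun j => (w j : ℝ))) i ^ 2

/-- least squared length `λ₁²` of a nonzero vector of the lattice `A ℤⁿ` -/
noncomputable def minSq {n : ℕ} (A : Matrix (Fin n) (Fin n) ℝ) : ℝ :=
  ⨅ w : {w : Fin n → ℤ // w ≠ 0}, sqLen A w.1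

/-- the Hermite invariant `γ(L) = λ₁² / det(L)^(2/n)` of `L = A ℤⁿ` -/
noncomputable def hermiteInv {n : ℕ} (A : Matrix (Fin n) (Fin n) ℝ) : ℝ :=
  minSq A / |A.det| ^ ((2 : ℝ) / (n : ℝ))

/-- Hermite's constant `γ_n` -/
noncomputable def hermite (n : ℕ) : ℝ :=
  ⨆ A : {A : Matrix (Fin n) (Fin n) ℝ // A.det ≠ 0}, hermiteInv A.1

/-- `F` (in coordinates) is a cluster of level `β` of the lattice `A ℤⁿ`: the mutual distances of its
elements are less than `β λ₁`. -/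
def IsCluster {n : ℕ} (A : Matrix (Fin n) (Fin n) ℝ) (β : ℝ) (F : Finset (Fin n → ℤ)) : Prop :=
  ∀ v ∈ F, ∀ w ∈ F, v ≠ w → sqLen A (v - w) < β ^ 2 * minSq A

/-- Every cluster of level `β` has at most `K` elements. -/
def ClustersLE {n : ℕ} (A : Matrix (Fin n) (Fin n) ℝ) (β : ℝ) (K : ℕ) : Prop :=
  ∀ F : Finset (Fin n → ℤ), IsCluster A β F → F.card ≤ K

/-- `γ_n(β, K)`: the supremum of the Hermite invariants of the lattices all of whose clusters of
level `β` have at most `K` elements -/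
noncomputable def clusterHermite (n : ℕ) (β : ℝ) (K : ℕ) : ℝ :=
  sSup {g | ∃ A : Matrix (Fin n) (Fin n) ℝ, A.det ≠ 0 ∧ ClustersLE A β K ∧ hermiteInv A = g}

/-- the squared lengths of the nonzero vectors of `A ℤⁿ` that are shorter than `β λ₁` -/
def lengths {n : ℕ} (A : Matrix (Fin n) (Fin n) ℝ) (β : ℝ) : Set ℝ :=
  {l | l < β ^ 2 * minSq A ∧ ∃ w : Fin n → ℤ, w ≠ 0 ∧ sqLen A w = l}

theorem result :
    -- for `β ≤ 1` it is Hermite's constant
    (∀ (n K : ℕ) (β : ℝ), 0 < n → 1 ≤ K → 0 < β → β ≤ 1 → clusterHermite n β K = hermite n) ∧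
    -- the inequality in dimension `n`
    (∀ (n K m : ℕ) (β : ℝ), 0 < n → 1 ≤ m → 0 < β → ∀ A : Matrix (Fin n) (Fin n) ℝ, A.det ≠ 0 →
      ClustersLE A β K → hermiteInv A / n ≤ (3 * n * (K + m).choose m : ℝ) ^ ((2 : ℝ) / n) *
        ((1 + 1 / m) / (Real.pi * Real.exp 1 * β ^ 2))) ∧
    -- the limit for clusters of subexponential size
    (∀ β : ℝ, √2 ≤ β → ∀ K : ℕ → ℕ, Tendsto K atTop atTop →
      Tendsto (fun n : ℕ => Real.logb 2 (K n) / n) atTop (𝓝 0) →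
      Tendsto (fun n : ℕ => clusterHermite n β (K n) / n) atTop
        (𝓝 (1 / (Real.pi * Real.exp 1 * β ^ 2)))) ∧
    -- it is reached, up to `ε`, with bounded clusters and linearly many lengths
    (∀ β c : ℝ, √2 ≤ β → c < 1 / (Real.pi * Real.exp 1 * β ^ 2) → ∃ K C : ℕ, ∀ᶠ n : ℕ in atTop,
      ∃ A : Matrix (Fin n) (Fin n) ℝ, A.det ≠ 0 ∧ ClustersLE A β K ∧ c ≤ hermiteInv A / n ∧
        ∀ t : ℝ, 0 < t → (lengths A t).encard ≤ ((C * ⌈t⌉₊ ^ 3 * n : ℕ) : ℕ∞)) ∧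
    -- lattices above the limit
    (∀ β θ : ℝ, 0 < β → 1 / (Real.pi * Real.exp 1 * β ^ 2) < θ → ∃ η : ℝ, 0 < η ∧
      ∀ᶠ n : ℕ in atTop, ∀ A : Matrix (Fin n) (Fin n) ℝ, A.det ≠ 0 → θ ≤ hermiteInv A / n →
        (∃ F : Finset (Fin n → ℤ), IsCluster A β F ∧ (2 : ℝ) ^ (η * n) ≤ F.card) ∧
        ∀ s : ℕ, (lengths A β).encard ≤ s → η * n < s) ∧
    -- near-optimal lattices
    (∀ β : ℝ, √2 < β → ∃ η : ℝ, 0 < η ∧
      ∀ᶠ n : ℕ in atTop, ∀ A : Matrix (Fin n) (Fin n) ℝ, A.det ≠ 0 →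
        (1 - η) * hermite n ≤ hermiteInv A →
        (∃ F : Finset (Fin n → ℤ), IsCluster A β F ∧ (2 : ℝ) ^ (η * n) ≤ F.card) ∧
        ∀ s : ℕ, (lengths A β).encard ≤ s → η * n < s) ∧
    -- the believed limit
    (Tendsto (fun n : ℕ => hermite n / n) atTop (𝓝 (1 / (2 * Real.pi * Real.exp 1))) ↔
      ∀ ε : ℝ, 0 < ε → ∃ K : ℕ, ∀ᶠ n : ℕ in atTop,
        (1 - ε) * hermite n ≤ clusterHermite n √2 K) := by
  refine ⟨fun n K β hn hK hβ hβ1 => Pool.Agent.N596.LA.clusterHermite_one hn hK hβ hβ1,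
    fun n K m β hn hm hβ A hA hK => Pool.Agent.N596.LA.gam_upper hn hA hβ hm hK,
    fun β hβ K hK hK' => Pool.Agent.N596.LA.cluster_limit hβ hK hK', ?_,
    fun β θ hβ hθ => Pool.Agent.N596.LA.lattice_threshold hβ hθ,
    fun β hβ => Pool.Agent.N596.LA.near_optimal hβ, Pool.Agent.N596.LA.belief⟩
  intro β c hβ hc
  obtain ⟨K, C, h⟩ := Pool.Agent.N596.LA.exists_lattice hβ hc
  refine ⟨K, 2 * (C + 1), ?_⟩
  filter_upwards [h, eventually_gt_atTop 0] with n hn hn0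
  obtain ⟨A, hA, hK, hcA, hl⟩ := hn
  refine ⟨A, hA, hK, hcA, fun t ht => (hl t ht).trans ?_⟩
  have h1 : 1 ≤ ⌈t⌉₊ := Nat.one_le_iff_ne_zero.2 (Nat.ceil_pos.2 ht).ne'
  have h2 : ⌈t ^ 2⌉₊ ≤ ⌈t⌉₊ ^ 2 := by
    apply Nat.ceil_le.2
    push_cast
    exact pow_le_pow_left₀ ht.le (Nat.le_ceil t) 2
  have h3 : (⌈t⌉₊ + 1) * (⌈t ^ 2⌉₊ * (C * n) + 1) ≤ 2 * (C + 1) * ⌈t⌉₊ ^ 3 * n := by
    calc (⌈t⌉₊ + 1) * (⌈t ^ 2⌉₊ * (C * n) + 1) ≤ (2 * ⌈t⌉₊) * (⌈t⌉₊ ^ 2 * ((C + 1) * n)) := by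
          apply Nat.mul_le_mul (by omega)
          have h4 : ⌈t ^ 2⌉₊ * (C * n) ≤ ⌈t⌉₊ ^ 2 * (C * n) := Nat.mul_le_mul_right _ h2
          have h5 : 1 ≤ ⌈t⌉₊ ^ 2 * n := Nat.mul_pos (pow_pos h1 2) hn0
          nlinarith
      _ = _ := by ring
  exact_mod_cast h3

end Pool.Agent.Results.MP_ef2672_gt.ClusterExponentLattices
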