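import Mathlib
import Pool.Agent.N345.Kn.Diff
import Pool.Agent.N304.TR.Main

set_option autoImplicit false

/-!
# Periodic sphere packings with few differences

Let `X = F + Λ` be the set of centres of a periodic packing of balls of radius `r` in `ℝ^n`, a union
of `N` translates of the lattice `Λ`, and let `D` be the number of classes modulo `Λ` of the
differences `x - y`, `x, y ∈ X` (so `N ≤ D ≤ N (N - 1) + 1`, with `D = N` if `X` is a translate of
a lattice).

We show that `X` is contained in the union of `m` translates of a lattice `Λ'` which is the set of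
centres of a packing of balls of the same radius `r` and consists of differences of elements of
`X`, with `m (2 N - D) ≤ N`; in particular the density of `X` is at most `m` times the density of
`Λ'`. So the packing is at most `N / (2 N - D)` times as dense as the best lattice packing if
`D < 2 N`; and it is not denser than the best lattice packing if `D < 3 N / 2`.

The proof uses Kneser's theorem (`Pool.Agent.Helper450.Kneser`).
-/

open MeasureTheory Metric Filter Set

namespace Pool.Agent.Results.MP_ef2672_gt.FewDifferences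

/-- Euclidean space `ℝ^n`. -/
abbrev E (n : ℕ) : Type := EuclideanSpace ℝ (Fin n)

/-- `Λ` is a full lattice of `ℝ^n`, and the closed balls of radius `r > 0` with centres in `Λ` form a
packing: nonzero vectors of `Λ` have length at least `2 r`. -/
structure LatticePacking {n : ℕ} (Λ : Submodule ℤ (E n)) (r : ℝ) : Prop where
  disc : DiscreteTopology Λ
  span_top : Submodule.span ℝ (Λ : Set (E n)) = ⊤
  pos : 0 < r
  sep : ∀ γ ∈ Λ, γ ≠ 0 → 2 * r ≤ ‖γ‖

/-- `Λ` is a full lattice of `ℝ^n`, and the closed balls of radius `r > 0` with centres in `F + Λ` form a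
packing, where different elements of `F` give different translates: two centres `x`, `y + γ` with
`x, y ∈ F`, `γ ∈ Λ`, not (`x = y` and `γ = 0`), have distance at least `2 r`. -/
structure TranslatesPacking {n : ℕ} (Λ : Submodule ℤ (E n)) (F : Finset (E n)) (r : ℝ) : Prop where
  disc : DiscreteTopology Λ
  span_top : Submodule.span ℝ (Λ : Set (E n)) = ⊤
  pos : 0 < r
  sep : ∀ x ∈ F, ∀ y ∈ F, ∀ γ ∈ Λ, (x = y → γ ≠ 0) → 2 * r ≤ ‖x - (y + γ)‖

/-- `ω_n`, the volume of the unit ball -/
noncomputable def omega (n : ℕ) : ℝ := volume.real (ball (0 : E n) 1)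

/-- the density of the packing of `k` translates of `Λ` with balls of radius `r` -/
noncomputable def density {n : ℕ} (Λ : Submodule ℤ (E n)) (k : ℕ) (r : ℝ) : ℝ :=
  k * (omega n * r ^ n) / ZLattice.covolume Λ

/-- `δ_n`, the maximal density of a lattice packing -/
noncomputable def latticeDensity (n : ℕ) : ℝ :=
  sSup {ρ | ∃ (Λ : Submodule ℤ (E n)) (r : ℝ), LatticePacking Λ r ∧ ρ = density Λ 1 r}

/-- the number of classes modulo `Λ` of the differences of elements of `F + Λ` -/
noncomputable def numDiff {n : ℕ} (Λ : Submodule ℤ (E n)) (F : Finset (E n)) : ℕ :=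
  Set.ncard {c : E n ⧸ Λ | ∃ x ∈ F, ∃ y ∈ F, c = Submodule.Quotient.mk (x - y)}

lemma lat_pack_iff {n : ℕ} {Λ : Submodule ℤ (E n)} {r : ℝ} :
    LatticePacking Λ r ↔ Pool.Agent.N304.TR.PerPack Λ {0} r := by
  rw [Pool.Agent.N304.TR.lat_iff]
  exact ⟨fun h => ⟨h.1, h.2, h.3, h.4⟩, fun h => ⟨h.1, h.2.1, h.2.2.1, h.2.2.2⟩⟩

lemma bdd {n : ℕ} (hn : 0 < n) :
    BddAbove {ρ | ∃ (Λ : Submodule ℤ (E n)) (r : ℝ), LatticePacking Λ r ∧ ρ = density Λ 1 r} := by
  have h := Pool.Agent.N304.TR.latSet_bdd hn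
  refine h.mono ?_
  rintro ρ ⟨Λ, r, hL, rfl⟩
  refine ⟨Λ, r, lat_pack_iff.1 hL, ?_⟩
  unfold density omega
  rw [Nat.cast_one, one_mul, mul_comm]
  rfl

open scoped Pointwise in
/-- the structure theorem -/
theorem structure_theorem {n : ℕ} {Λ : Submodule ℤ (E n)} {F : Finset (E n)} {r : ℝ}
    (h : TranslatesPacking Λ F r) (hF : F.Nonempty) :
    ∃ (Λ' : Submodule ℤ (E n)) (R : Finset (E n)), Λ ≤ Λ' ∧ LatticePacking Λ' r ∧
      (∀ γ ∈ Λ', ∃ x ∈ F, ∃ y ∈ F, γ - (x - y) ∈ Λ) ∧
      R ⊆ F ∧ (∀ x ∈ F, ∃ y ∈ R, x - y ∈ Λ') ∧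
      2 * R.card * F.card ≤ F.card + R.card * numDiff Λ F ∧
      density Λ F.card r ≤ R.card * density Λ' 1 r := by
  classical
  let π : E n →+ E n ⧸ Λ := Λ.mkQ.toAddMonoidHom
  have hπ : ∀ x, π x = 0 ↔ x ∈ Λ := fun x => Submodule.Quotient.mk_eq_zero Λ
  have hπs : Function.Surjective π := Submodule.mkQ_surjective Λ
  have hinj : Set.InjOn π F := by
    intro x hx y hy hxy
    by_contra hne
    have h1 : x - y ∈ Λ := by rw [← hπ, map_sub, hxy, sub_self]
    have h2 := h.sep x hx y hy (x - y) h1 (fun e => absurd e hne)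
    rw [add_sub_cancel, sub_self, norm_zero] at h2
    have := h.pos
    linarith
  set A : Finset (E n ⧸ Λ) := F.image π with hA
  have hAc : A.card = F.card := Finset.card_image_of_injOn hinj
  have hD : (A - A).card = numDiff Λ F := by
    unfold numDiff
    rw [← Set.ncard_coe_finset]
    congr 1
    ext c
    rw [Finset.mem_coe, Finset.mem_sub, Set.mem_setOf_eq]
    constructor
    · rintro ⟨u, hu, v, hv, rfl⟩
      obtain ⟨x, hx, rfl⟩ := Finset.mem_image.1 hu
      obtain ⟨y, hy, rfl⟩ := Finset.mem_image.1 hv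
      exact ⟨x, hx, y, hy, rfl⟩
    · rintro ⟨x, hx, y, hy, rfl⟩
      exact ⟨π x, Finset.mem_image_of_mem _ hx, π y, Finset.mem_image_of_mem _ hy, rfl⟩
  obtain ⟨H, hH1, hH2⟩ := Pool.Agent.N345.Kn.diff_kneser (A := A) (hF.image π)
  have hfin : (H : Set (E n ⧸ Λ)).Finite := (A - A).finite_toSet.subset fun x hx => hH1 x hx
  have : Finite H := hfin
  have hHpos : 0 < Nat.card H := Nat.card_pos
  let L : AddSubgroup (E n) := H.comap π
  let Λ' : Submodule ℤ (E n) := AddSubgroup.toIntSubmodule L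
  have hmem : ∀ x, x ∈ Λ' ↔ π x ∈ H := fun x => Iff.rfl
  have hle : Λ ≤ Λ' := by
    intro x hx
    rw [hmem, (hπ x).2 hx]
    exact H.zero_mem
  have hdiff : ∀ γ ∈ Λ', ∃ x ∈ F, ∃ y ∈ F, γ - (x - y) ∈ Λ := by
    intro γ hγ
    obtain ⟨u, hu, v, hv, huv⟩ := Finset.mem_sub.1 (hH1 _ ((hmem γ).1 hγ))
    obtain ⟨x, hx, rfl⟩ := Finset.mem_image.1 hu
    obtain ⟨y, hy, rfl⟩ := Finset.mem_image.1 hv
    refine ⟨x, hx, y, hy, ?_⟩
    rw [← hπ, map_sub, map_sub, huv, sub_self]
  have hsep : ∀ γ ∈ Λ', γ ≠ 0 → 2 * r ≤ ‖γ‖ := by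
    intro γ hγ hγ0
    obtain ⟨x, hx, y, hy, hxy⟩ := hdiff γ hγ
    have h1 := h.sep x hx y hy (-(γ - (x - y))) (Λ.neg_mem hxy) ?_
    · have e : x - (y + -(γ - (x - y))) = γ := by abel
      rwa [e] at h1
    · rintro rfl
      rw [sub_self, sub_zero]
      exact neg_ne_zero.2 hγ0
  have hr := h.pos
  have hdisc : DiscreteTopology Λ' := by
    refine DiscreteTopology.of_forall_le_dist (r := 2 * r) (by linarith) ?_
    intro x y hxy
    have h1 := hsep (x - y) (Λ'.sub_mem x.2 y.2) (by
      rw [sub_ne_zero]; exact fun e => hxy (Subtype.ext e))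
    rw [Subtype.dist_eq, dist_eq_norm]
    exact h1
  have hspan : Submodule.span ℝ (Λ' : Set (E n)) = ⊤ := by
    rw [eq_top_iff, ← h.span_top]
    exact Submodule.span_mono hle
  obtain ⟨R, hRF, hR1, hR2⟩ := Pool.Agent.N345.Kn.exists_reps L F
  have hRim : (R.image π).card = R.card := Finset.card_image_of_injOn (hinj.mono fun x hx => hRF hx)
  have hK := hH2 (R.image π) (Finset.image_subset_image hRF) ?_
  swap
  · intro u hu v hv huv
    obtain ⟨x, hx, rfl⟩ := Finset.mem_image.1 hu
    obtain ⟨y, hy, rfl⟩ := Finset.mem_image.1 hv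
    rw [← map_sub] at huv
    rw [hR2 x hx y hy huv]
  rw [hRim, hD] at hK
  -- the number of translates
  have hN : F.card ≤ R.card * Nat.card H := by
    choose! ρ hρ1 hρ2 using hR1
    have h1 : F.card ≤ (R ×ˢ hfin.toFinset).card := by
      refine Finset.card_le_card_of_injOn (fun x => (ρ x, π (x - ρ x))) ?_ ?_
      · intro x hx
        refine Finset.mem_coe.2 (Finset.mem_product.2 ⟨hρ1 x hx, ?_⟩)
        exact hfin.mem_toFinset.2 (hρ2 x hx)
      · intro x hx y hy hxy
        have e1 : ρ x = ρ y := congrArg Prod.fst hxy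
        have e2 : π (x - ρ x) = π (y - ρ y) := congrArg Prod.snd hxy
        rw [map_sub, map_sub, e1, sub_left_inj] at e2
        exact hinj hx hy e2
    rw [Finset.card_product] at h1
    have h2 : hfin.toFinset.card = Nat.card H := by
      rw [← Set.ncard_eq_toFinset_card _ hfin]
      exact (Nat.card_coe_set_eq _).symm
    rwa [h2] at h1
  have hineq : 2 * R.card * F.card ≤ F.card + R.card * numDiff Λ F := by
    obtain ⟨N, hNe⟩ : ∃ N, N = F.card := ⟨_, rfl⟩
    obtain ⟨m, hme⟩ : ∃ m, m = R.card := ⟨_, rfl⟩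
    obtain ⟨c, hce⟩ : ∃ c, c = Nat.card H := ⟨_, rfl⟩
    obtain ⟨D, hDe⟩ : ∃ D, D = numDiff Λ F := ⟨_, rfl⟩
    rw [← hNe, ← hme, ← hDe]
    rw [← hNe, ← hme, ← hce] at hN
    rw [← hme, ← hce, ← hDe] at hK
    rcases Nat.eq_zero_or_pos m with h0 | h0
    · rw [h0]; simp
    · obtain ⟨m', rfl⟩ : ∃ m', m = m' + 1 := ⟨m - 1, by omega⟩
      have h1 : (2 * m' + 1) * c ≤ D := by nlinarith
      have h2 : (2 * m' + 1) * N ≤ (m' + 1) * D := by
        calc (2 * m' + 1) * N ≤ (2 * m' + 1) * ((m' + 1) * c) := Nat.mul_le_mul_left _ hN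
          _ = (m' + 1) * ((2 * m' + 1) * c) := by ring
          _ ≤ (m' + 1) * D := Nat.mul_le_mul_left _ h1
      nlinarith
  refine ⟨Λ', R, hle, ⟨hdisc, hspan, h.pos, hsep⟩, hdiff, hRF, hR1, hineq, ?_⟩
  -- the density
  have := h.disc
  have : IsZLattice ℝ Λ := ⟨h.span_top⟩
  have := hdisc
  have : IsZLattice ℝ Λ' := ⟨hspan⟩
  have hcov := ZLattice.covolume_div_covolume_eq_relIndex' Λ Λ' hle
  have hker : π.ker = Λ.toAddSubgroup := by
    ext x
    exact hπ x
  have hind : Λ.toAddSubgroup.relIndex Λ'.toAddSubgroup = Nat.card H := by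
    rw [← hker, AddSubgroup.relIndex_ker]
    have e : AddSubgroup.map π Λ'.toAddSubgroup = H := by
      have : Λ'.toAddSubgroup = H.comap π := rfl
      rw [this, AddSubgroup.map_comap_eq_self_of_surjective hπs]
    rw [e]
  rw [hind] at hcov
  have hc1 : 0 < ZLattice.covolume Λ := ZLattice.covolume_pos Λ volume
  have hc2 : 0 < ZLattice.covolume Λ' := ZLattice.covolume_pos Λ' volume
  have hcov' : ZLattice.covolume Λ = Nat.card H * ZLattice.covolume Λ' := by
    rw [← hcov]; field_simp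
  have hω : 0 ≤ omega n * r ^ n := mul_nonneg measureReal_nonneg (pow_nonneg hr.le n)
  have hHpos' : (0 : ℝ) < Nat.card H := by exact_mod_cast hHpos
  unfold density
  rw [hcov', Nat.cast_one, one_mul, ← mul_div_assoc, div_le_div_iff₀ (by positivity) hc2]
  have hN' : (F.card : ℝ) ≤ R.card * Nat.card H := by exact_mod_cast hN
  calc (F.card : ℝ) * (omega n * r ^ n) * ZLattice.covolume Λ'
      ≤ (R.card * Nat.card H) * (omega n * r ^ n) * ZLattice.covolume Λ' := by gcongr
    _ = R.card * (omega n * r ^ n) * (Nat.card H * ZLattice.covolume Λ') := by ring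

/-- **Periodic packings with few differences.** -/
theorem result {n : ℕ} {Λ : Submodule ℤ (E n)} {F : Finset (E n)} {r : ℝ}
    (h : TranslatesPacking Λ F r) (hF : F.Nonempty) :
    -- the structure
    (∃ (Λ' : Submodule ℤ (E n)) (R : Finset (E n)), Λ ≤ Λ' ∧ LatticePacking Λ' r ∧
      (∀ γ ∈ Λ', ∃ x ∈ F, ∃ y ∈ F, γ - (x - y) ∈ Λ) ∧
      R ⊆ F ∧ (∀ x ∈ F, ∃ y ∈ R, x - y ∈ Λ') ∧
      2 * R.card * F.card ≤ F.card + R.card * numDiff Λ F ∧
      density Λ F.card r ≤ R.card * density Λ' 1 r) ∧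
    -- the density
    (0 < n → numDiff Λ F < 2 * F.card →
      density Λ F.card r ≤ (F.card / (2 * F.card - numDiff Λ F) : ℕ) * latticeDensity n) ∧
    (0 < n → 2 * numDiff Λ F < 3 * F.card → density Λ F.card r ≤ latticeDensity n) := by
  have hF0 : 0 < F.card := hF.card_pos
  have main : 0 < n → numDiff Λ F < 2 * F.card →
      density Λ F.card r ≤ (F.card / (2 * F.card - numDiff Λ F) : ℕ) * latticeDensity n := by
    intro hn hD
    obtain ⟨Λ', R, hle, hL, hdiff, hRF, hR1, hineq, hdens⟩ := structure_theorem h hF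
    refine hdens.trans ?_
    have h1 : density Λ' 1 r ≤ latticeDensity n := le_csSup (bdd hn) ⟨Λ', r, hL, rfl⟩
    have h0 : 0 ≤ density Λ' 1 r := by
      unfold density
      refine div_nonneg (mul_nonneg (Nat.cast_nonneg _) (mul_nonneg measureReal_nonneg
        (pow_nonneg h.pos.le n))) ?_
      have := hL.disc
      have : IsZLattice ℝ Λ' := ⟨hL.span_top⟩
      exact (ZLattice.covolume_pos Λ' volume).le
    have h2 : R.card ≤ F.card / (2 * F.card - numDiff Λ F) := by
      rw [Nat.le_div_iff_mul_le (by omega)]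
      obtain ⟨t, ht⟩ : ∃ t, 2 * F.card = numDiff Λ F + t := Nat.exists_eq_add_of_le hD.le
      rw [show 2 * F.card - numDiff Λ F = t by omega]
      have e : R.card * (2 * F.card) = R.card * numDiff Λ F + R.card * t := by rw [ht]; ring
      nlinarith
    have h2' : (R.card : ℝ) ≤ (F.card / (2 * F.card - numDiff Λ F) : ℕ) := by exact_mod_cast h2
    exact mul_le_mul h2' h1 h0 (Nat.cast_nonneg _)
  refine ⟨structure_theorem h hF, main, fun hn hD => ?_⟩
  have h1 := main hn (by omega)
  have h2 : F.card / (2 * F.card - numDiff Λ F) ≤ 1 := by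
    have : F.card / (2 * F.card - numDiff Λ F) < 2 := by
      rw [Nat.div_lt_iff_lt_mul (by omega)]; omega
    omega
  have h3 : ((F.card / (2 * F.card - numDiff Λ F) : ℕ) : ℝ) ≤ 1 := by exact_mod_cast h2
  have h4 : 0 ≤ latticeDensity n := by
    refine Real.sSup_nonneg ?_
    rintro ρ ⟨Λ', r', hL, rfl⟩
    unfold density
    refine div_nonneg (mul_nonneg (Nat.cast_nonneg _) (mul_nonneg measureReal_nonneg
      (pow_nonneg hL.pos.le n))) ?_
    have := hL.disc
    have : IsZLattice ℝ Λ' := ⟨hL.span_top⟩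
    exact (ZLattice.covolume_pos Λ' volume).le
  nlinarith

end Pool.Agent.Results.MP_ef2672_gt.FewDifferences
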