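import Pool.Agent.N304.TR.Main

/-!
# How many translates of a lattice does a dense sphere packing need?

`δ_n` is the maximal density of a lattice packing of `ℝ^n`, `Δ_n` the maximal density of all packings,
and `δ_n(N)` the maximal density of the packings whose centres form a union of at most `N` translates
of a lattice, so `δ_n = δ_n(1) ≤ δ_n(N) ≤ min (N δ_n) Δ_n`. We show the converse inequality

`δ_n(N)^(-1/n) ≤ (N δ_n)^(-1/n) + Δ_n^(-1/n)` for all `n` and `N`,

so that `δ_n(N)^(1/n)` lies between one half of `min ((N δ_n)^(1/n), Δ_n^(1/n))` and this minimum, and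
much closer to it if the two numbers are different: with `T = (1/n) log₂ (Δ_n / (N δ_n))` the number
`(1/n) log₂ (Δ_n / δ_n(N))` is at least `max 0 T` and at most `log₂ (1 + 2^T)`. The same holds for
Hermite's constant `γ_n = 4 (δ_n / ω_n)^(2/n)` and its analogues for `δ_n(N)` and `Δ_n`.

So the number of translates which is needed for a packing of density `λ^n Δ_n` is at least
`λ^n Δ_n / δ_n`, and `⌈(λ / (1 - λ))^n Δ_n / δ_n⌉` translates suffice. In other words Hermite's
constant is determined, up to a factor between `1` and `4` (and exactly in the exponential scale, if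
`λ` tends to one slowly), by the density of general packings and the number of translates of a
lattice that nearly optimal packings need; and if lattice packings are exponentially worse than
general ones then so are all unions of `2^(C n)` translates for small `C`, and the optimal exponent
is approached exponentially fast in `C`.

More generally every lattice, of any density, with packing radius `r₀` is the lattice of periods of a
packing of balls of radius `r < r₀` with density at least `(1 - r / r₀)^n Δ_n`.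

Proof. In the Voronoi cell `V` of the lattice, shrunk by the factor `s = 1 - r / r₀`, the points of two
different translates have distance at least `(1 - s) 2 r₀ = 2 r`; and by averaging there is a set of
centres in `s V` with at least `Δ_n` times the number of balls of radius `r` which have together the
volume of `s V`. With `r / r₀ = 1 / (1 + x)` one obtains at least `x^n Δ_n / δ` translates, where `δ` is
the density of the lattice. The library `Pool.Agent.H818R2` (averaging) of the starting files is used.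
-/

set_option autoImplicit false

open MeasureTheory Metric Filter Set

namespace Pool.Agent.Results.MP_ef2672_gt.NumberOfTranslates

/-- Euclidean space `ℝ^n`. -/
abbrev E (n : ℕ) : Type := EuclideanSpace ℝ (Fin n)

/-- `Λ` is a full lattice of `ℝ^n`, and the closed balls of radius `r > 0` with centres in `Λ` form a
packing: nonzero vectors of `Λ` have length at least `2 r`. -/
structure LatticePacking {n : ℕ} (Λ : Submodule ℤ (E n)) (r : ℝ) : Prop where
  disc : DiscreteTopology Λ
  span_top : Submodule.span ℝ (Λ : Set (E n)) = ⊤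
  pos : 0 < r
  sep : ∀ γ ∈ Λ, γ ≠ 0 → 2 * r ≤ ‖γ‖

/-- `Λ` is a full lattice of `ℝ^n`, and the closed balls of radius `r > 0` with centres in `F + Λ` form a
packing, where different elements of `F` give different translates: two centres `x`, `y + γ` with
`x, y ∈ F`, `γ ∈ Λ`, not (`x = y` and `γ = 0`), have distance at least `2 r`. -/
structure TranslatesPacking {n : ℕ} (Λ : Submodule ℤ (E n)) (F : Finset (E n)) (r : ℝ) : Prop where
  disc : DiscreteTopology Λ
  span_top : Submodule.span ℝ (Λ : Set (E n)) = ⊤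
  pos : 0 < r
  sep : ∀ x ∈ F, ∀ y ∈ F, ∀ γ ∈ Λ, (x = y → γ ≠ 0) → 2 * r ≤ ‖x - (y + γ)‖

/-- `ω_n`, the volume of the unit ball -/
noncomputable def omega (n : ℕ) : ℝ := volume.real (ball (0 : E n) 1)

/-- the density of the packing of `k` translates of `Λ` with balls of radius `r` -/
noncomputable def density {n : ℕ} (Λ : Submodule ℤ (E n)) (k : ℕ) (r : ℝ) : ℝ :=
  k * (omega n * r ^ n) / ZLattice.covolume Λ

/-- `δ_n`, the maximal density of a lattice packing -/
noncomputable def latticeDensity (n : ℕ) : ℝ :=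
  sSup {ρ | ∃ (Λ : Submodule ℤ (E n)) (r : ℝ), LatticePacking Λ r ∧ ρ = density Λ 1 r}

/-- `δ_n(N)`, the maximal density of a packing with at most `N` translates of a lattice -/
noncomputable def translatesDensity (n N : ℕ) : ℝ :=
  sSup {ρ | ∃ (Λ : Submodule ℤ (E n)) (F : Finset (E n)) (r : ℝ),
    TranslatesPacking Λ F r ∧ F.card ≤ N ∧ ρ = density Λ F.card r}

/-- `Δ_n`, the supremum of the (upper) densities of all packings of congruent balls in `ℝ^n` -/
noncomputable def generalDensity (n : ℕ) : ℝ := Pool.Agent.H818R2.rho n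

/-- `4 (δ / ω_n)^(2/n)`, for `δ = δ_n` Hermite's constant `γ_n` -/
noncomputable def hermiteOf (n : ℕ) (δ : ℝ) : ℝ := 4 * (δ / omega n) ^ (2 / (n : ℝ))

lemma pack_iff {n : ℕ} {Λ : Submodule ℤ (E n)} {F : Finset (E n)} {r : ℝ} :
    TranslatesPacking Λ F r ↔ Pool.Agent.N304.TR.PerPack Λ F r := by
  constructor
  · rintro ⟨h1, h2, h3, h4⟩
    refine ⟨h1, h2, h3, fun x hx y hy γ hγ h => ?_⟩
    rw [sub_sub]
    exact h4 x hx y hy γ hγ h
  · rintro ⟨h1, h2, h3, h4⟩
    refine ⟨h1, h2, h3, fun x hx y hy γ hγ h => ?_⟩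
    rw [← sub_sub]
    exact h4 x hx y hy γ hγ h

lemma lat_pack_iff {n : ℕ} {Λ : Submodule ℤ (E n)} {r : ℝ} :
    LatticePacking Λ r ↔ Pool.Agent.N304.TR.PerPack Λ {0} r := by
  rw [Pool.Agent.N304.TR.lat_iff]
  exact ⟨fun h => ⟨h.1, h.2, h.3, h.4⟩, fun h => ⟨h.1, h.2.1, h.2.2.1, h.2.2.2⟩⟩

lemma lat_eq (n : ℕ) : latticeDensity n = sSup (Pool.Agent.N304.TR.latSet n) := by
  unfold latticeDensity Pool.Agent.N304.TR.latSet
  congr 1
  ext ρ
  constructor
  · rintro ⟨Λ, r, h, rfl⟩
    refine ⟨Λ, r, lat_pack_iff.1 h, ?_⟩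
    unfold density omega
    rw [Nat.cast_one, one_mul, mul_comm]
    rfl
  · rintro ⟨Λ, r, h, rfl⟩
    refine ⟨Λ, r, lat_pack_iff.2 h, ?_⟩
    unfold density omega
    rw [Nat.cast_one, one_mul, mul_comm]
    rfl

lemma per_eq (n N : ℕ) : translatesDensity n N = sSup (Pool.Agent.N304.TR.perSet n N) := by
  unfold translatesDensity Pool.Agent.N304.TR.perSet
  congr 1
  ext ρ
  constructor
  · rintro ⟨Λ, F, r, h, hF, rfl⟩
    refine ⟨Λ, F, r, pack_iff.1 h, hF, ?_⟩
    unfold density omega
    rw [mul_comm (volume.real _)]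
    rfl
  · rintro ⟨Λ, F, r, h, hF, rfl⟩
    refine ⟨Λ, F, r, pack_iff.2 h, hF, ?_⟩
    unfold density omega
    rw [mul_comm (volume.real _)]
    rfl

theorem result (n N : ℕ) (hn : 0 < n) (hN : 0 < N) :
    -- the density of the unions of at most `N` translates
    (latticeDensity n ≤ translatesDensity n N ∧
      translatesDensity n N ≤ min (N * latticeDensity n) (generalDensity n) ∧
      translatesDensity n N ^ (-1 / (n : ℝ)) ≤
        (N * latticeDensity n) ^ (-1 / (n : ℝ)) + generalDensity n ^ (-1 / (n : ℝ))) ∧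
    -- the same in the logarithmic scale
    (∀ T : ℝ, T = Real.logb 2 (generalDensity n / (N * latticeDensity n)) / n →
      max 0 T ≤ Real.logb 2 (generalDensity n / translatesDensity n N) / n ∧
      Real.logb 2 (generalDensity n / translatesDensity n N) / n ≤ Real.logb 2 (1 + 2 ^ T)) ∧
    -- the same for Hermite's constant
    1 / √(hermiteOf n (translatesDensity n N)) ≤
      1 / ((N : ℝ) ^ (1 / (n : ℝ)) * √(hermiteOf n (latticeDensity n))) +
        1 / √(hermiteOf n (generalDensity n)) ∧
    -- the number of translates which is needed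
    (∀ l : ℝ, 0 < l → l < 1 →
      (l ^ n * generalDensity n ≤ translatesDensity n N →
        l ^ n * (generalDensity n / latticeDensity n) ≤ N) ∧
      ((l / (1 - l)) ^ n * (generalDensity n / latticeDensity n) ≤ N →
        l ^ n * generalDensity n ≤ translatesDensity n N)) ∧
    -- dense packings with an arbitrary lattice of periods
    (∀ (Λ : Submodule ℤ (E n)) (r₀ r : ℝ), LatticePacking Λ r₀ → 0 < r → r < r₀ →
      ∃ F : Finset (E n), TranslatesPacking Λ F r ∧
        (1 - r / r₀) ^ n * generalDensity n ≤ density Λ F.card r) := by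
  have hρ : 0 < generalDensity n := Pool.Agent.H818R2.rho_pos hn
  have hl : 0 < latticeDensity n := by rw [lat_eq]; exact Pool.Agent.N304.TR.lat_pos hn
  have hc : 0 < translatesDensity n N := by rw [per_eq]; exact Pool.Agent.N304.TR.per_pos hn hN
  have hN0 : (0 : ℝ) < N := by exact_mod_cast hN
  have hn0 : (0 : ℝ) < n := by exact_mod_cast hn
  have hω : 0 < omega n := Pool.Agent.H818R2.vb_pos
  have g1 : latticeDensity n ≤ translatesDensity n N := by
    rw [lat_eq, per_eq]; exact Pool.Agent.N304.TR.lat_le_per hn hN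
  have g2 : translatesDensity n N ≤ N * latticeDensity n := by
    rw [lat_eq, per_eq]; exact Pool.Agent.N304.TR.per_le_mul hn hN
  have g3 : translatesDensity n N ≤ generalDensity n := by
    rw [per_eq]; exact Pool.Agent.N304.TR.per_le_rho' hn hN
  have g4 : translatesDensity n N ^ (-1 / (n : ℝ)) ≤
      (N * latticeDensity n) ^ (-1 / (n : ℝ)) + generalDensity n ^ (-1 / (n : ℝ)) := by
    have := Pool.Agent.N304.TR.main hn hN
    rw [lat_eq, per_eq, neg_div]
    exact this
  obtain ⟨a, ha⟩ : ∃ a, a = latticeDensity n := ⟨_, rfl⟩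
  obtain ⟨b, hb⟩ : ∃ b, b = generalDensity n := ⟨_, rfl⟩
  obtain ⟨c, hcc⟩ : ∃ c, c = translatesDensity n N := ⟨_, rfl⟩
  rw [← ha, ← hcc] at g1 g2
  rw [← hb, ← hcc] at g3
  rw [← ha, ← hb, ← hcc] at g4
  rw [← ha] at hl
  rw [← hb] at hρ
  rw [← hcc] at hc
  rw [← ha, ← hb, ← hcc]
  have hcn : 0 < c ^ (1 / (n : ℝ)) := by positivity
  have hbn : 0 < b ^ (1 / (n : ℝ)) := by positivity
  have han : 0 < (N * a) ^ (1 / (n : ℝ)) := by positivity
  have g5 : (c ^ (1 / (n : ℝ)))⁻¹ ≤ ((N * a) ^ (1 / (n : ℝ)))⁻¹ + (b ^ (1 / (n : ℝ)))⁻¹ := by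
    rw [← Real.rpow_neg hc.le, ← Real.rpow_neg (by positivity), ← Real.rpow_neg hρ.le]
    rw [show (-1 : ℝ) / n = -(1 / n) by ring] at g4
    exact g4
  refine ⟨⟨g1, le_min g2 g3, g4⟩, ?_, ?_, ?_, ?_⟩
  · rintro T rfl
    constructor
    · refine max_le ?_ ?_
      · refine div_nonneg (Real.logb_nonneg (by norm_num) ?_) hn0.le
        rwa [le_div_iff₀ hc, one_mul]
      · gcongr
        · norm_num
    · -- upper bound
      have e1 : (2 : ℝ) ^ (Real.logb 2 (b / (N * a)) / n) = (b / (N * a)) ^ (1 / (n : ℝ)) := by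
        rw [div_eq_mul_one_div, Real.rpow_mul (by norm_num),
          Real.rpow_logb (by norm_num) (by norm_num) (by positivity)]
      have e2 : Real.logb 2 (b / c) / n = Real.logb 2 ((b / c) ^ (1 / (n : ℝ))) := by
        rw [Real.logb_rpow_eq_mul_logb_of_pos (by positivity)]
        ring
      rw [e1, e2]
      refine Real.logb_le_logb_of_le (by norm_num) (by positivity) ?_
      rw [Real.div_rpow hρ.le hc.le, Real.div_rpow hρ.le (by positivity)]
      calc b ^ (1 / (n : ℝ)) / c ^ (1 / (n : ℝ))
          = b ^ (1 / (n : ℝ)) * (c ^ (1 / (n : ℝ)))⁻¹ := by ring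
        _ ≤ b ^ (1 / (n : ℝ)) * (((N * a) ^ (1 / (n : ℝ)))⁻¹ + (b ^ (1 / (n : ℝ)))⁻¹) := by gcongr
        _ = 1 + b ^ (1 / (n : ℝ)) / (N * a) ^ (1 / (n : ℝ)) := by
            field_simp
            ring
  · -- Hermite's constant
    have e : ∀ δ : ℝ, 0 < δ → √(hermiteOf n δ) = 2 * δ ^ (1 / (n : ℝ)) / omega n ^ (1 / (n : ℝ)) := by
      intro δ hδ
      unfold hermiteOf
      rw [Real.sqrt_mul (by norm_num), show (4 : ℝ) = 2 ^ 2 by norm_num, Real.sqrt_sq (by norm_num),
        Real.sqrt_eq_rpow, ← Real.rpow_mul (by positivity), Real.div_rpow hδ.le hω.le,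
        show 2 / (n : ℝ) * (1 / 2) = 1 / n by ring]
      ring
    rw [e _ hc, e _ hl, e _ hρ]
    rw [Real.mul_rpow hN0.le hl.le] at g5
    have hωn : 0 < omega n ^ (1 / (n : ℝ)) := by positivity
    have hNn : 0 < (N : ℝ) ^ (1 / (n : ℝ)) := by positivity
    have haa : 0 < a ^ (1 / (n : ℝ)) := by positivity
    set w := omega n ^ (1 / (n : ℝ))
    calc 1 / (2 * c ^ (1 / (n : ℝ)) / w) = w / 2 * (c ^ (1 / (n : ℝ)))⁻¹ := by field_simp
      _ ≤ w / 2 * (((N : ℝ) ^ (1 / (n : ℝ)) * a ^ (1 / (n : ℝ)))⁻¹ + (b ^ (1 / (n : ℝ)))⁻¹) := by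
          gcongr
      _ = _ := by field_simp
  · intro l hl0 hl1
    constructor
    · intro h
      have h1 := h.trans g2
      rw [← mul_div_assoc, div_le_iff₀ hl]
      exact h1
    · intro h
      have hl2 : 0 < 1 - l := by linarith
      have h1 : (l / (1 - l)) ^ n * b ≤ N * a := by
        rw [← mul_div_assoc, div_le_iff₀ hl] at h
        exact h
      have h2 : l / (1 - l) * b ^ (1 / (n : ℝ)) ≤ (N * a) ^ (1 / (n : ℝ)) := by
        have h3 := Real.rpow_le_rpow (by positivity) h1 (show 0 ≤ 1 / (n : ℝ) by positivity)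
        rw [Real.mul_rpow (by positivity) hρ.le, ← Real.rpow_natCast (l / (1 - l)) n,
          ← Real.rpow_mul (by positivity), mul_one_div_cancel (by positivity), Real.rpow_one] at h3
        exact h3
      have h3 : (c ^ (1 / (n : ℝ)))⁻¹ ≤ (l * b ^ (1 / (n : ℝ)))⁻¹ := by
        refine g5.trans ?_
        have h4 : ((N * a) ^ (1 / (n : ℝ)))⁻¹ ≤ (l / (1 - l) * b ^ (1 / (n : ℝ)))⁻¹ :=
          inv_anti₀ (by positivity) h2
        refine (add_le_add_left h4 _).trans (le_of_eq ?_)
        field_simp
        ring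
      have h4 : l * b ^ (1 / (n : ℝ)) ≤ c ^ (1 / (n : ℝ)) := by
        rwa [inv_le_inv₀ hcn (by positivity)] at h3
      have h5 := pow_le_pow_left₀ (by positivity) h4 n
      rw [mul_pow, Pool.Agent.N304.TR.rpow_inv_pow hρ.le hn,
        Pool.Agent.N304.TR.rpow_inv_pow hc.le hn] at h5
      exact h5
  · intro Λ r₀ r h hr hrr
    obtain ⟨F, hF, hFc⟩ := Pool.Agent.N304.TR.fill' (lat_pack_iff.1 h) hr hrr
    refine ⟨F, pack_iff.2 hF, ?_⟩
    have hcov := Pool.Agent.N304.TR.covol_pos hF
    unfold density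
    rw [le_div_iff₀ hcov, hb]
    calc (1 - r / r₀) ^ n * generalDensity n * ZLattice.covolume Λ
        = Pool.Agent.H818R2.rho n * (1 - r / r₀) ^ n * ZLattice.covolume Λ := by
          unfold generalDensity; ring
      _ ≤ F.card * (r ^ n * Pool.Agent.H818R2.vb (E n)) := hFc
      _ = F.card * (omega n * r ^ n) := by
          rw [mul_comm (r ^ n)]; rfl

end Pool.Agent.Results.MP_ef2672_gt.NumberOfTranslates
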